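import Mathlib

/-!
Slow Fibonacci walks: definitions for problem MP_e2feb3_nt.
-/

namespace Pool.Agent.Lib.MP_e2feb3_nt

/-- The `(a₁, a₂)`-Fibonacci walk: `w₁ = a₁`, `w₂ = a₂`, `w_{k+2} = w_{k+1} + w_k` for `k ≥ 1`
(the value `0` at index `0` is a filler that is never used). -/
def walk (a₁ a₂ : ℕ) : ℕ → ℕ
  | 0 => 0
  | 1 => a₁
  | 2 => a₂
  | (k + 3) => walk a₁ a₂ (k + 2) + walk a₁ a₂ (k + 1)

/-- `slow n` is the largest index `s ≥ 1` such that some walk of positive integers has value `n`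
at index `s`. -/
noncomputable def slow (n : ℕ) : ℕ :=
  sSup {s : ℕ | 1 ≤ s ∧ ∃ a₁ a₂ : ℕ, 1 ≤ a₁ ∧ 1 ≤ a₂ ∧ walk a₁ a₂ s = n}

/-- `n` is a down-integer: `n ≥ 2` and some `n`-slow walk has next term `⌊φ n⌋`. -/
def IsDown (n : ℕ) : Prop :=
  2 ≤ n ∧ ∃ a₁ a₂ : ℕ, 1 ≤ a₁ ∧ 1 ≤ a₂ ∧ walk a₁ a₂ (slow n) = n ∧
    (walk a₁ a₂ (slow n + 1) : ℤ) = ⌊Real.goldenRatio * n⌋

/-- `n` is an up-integer: `n ≥ 2` and some `n`-slow walk has next term `⌈φ n⌉`. -/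
def IsUp (n : ℕ) : Prop :=
  2 ≤ n ∧ ∃ a₁ a₂ : ℕ, 1 ≤ a₁ ∧ 1 ≤ a₂ ∧ walk a₁ a₂ (slow n) = n ∧
    (walk a₁ a₂ (slow n + 1) : ℤ) = ⌈Real.goldenRatio * n⌉

/-- The set of `ℓ`-th order gaps of the increasing enumeration `Nat.nth P` of `{n | P n}`. -/
def gapSet (P : ℕ → Prop) (ℓ : ℕ) : Set ℕ :=
  {g : ℕ | ∃ k : ℕ, g = Nat.nth P (k + ℓ) - Nat.nth P k}

end Pool.Agent.Lib.MP_e2feb3_nt
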