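import Mathlib
import Pool.Agent.Lib.MP_e2feb3_nt.Defs

namespace Pool.Agent.Lib.MP_e2feb3_nt

open Real

/-- `gg k = φ^k f_k` -/
noncomputable def gg (k : ℕ) : ℝ := goldenRatio ^ k * (Nat.fib k : ℝ)

lemma gg_nonneg (k : ℕ) : 0 ≤ gg k := by
  unfold gg; have := goldenRatio_pos; positivity

lemma gg_pos (k : ℕ) (hk : 1 ≤ k) : 0 < gg k := by
  unfold gg
  have := goldenRatio_pos
  have h2 : 0 < Nat.fib k := Nat.fib_pos.2 hk
  positivity

lemma gg_mono : Monotone gg := by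
  intro i j h
  unfold gg
  have := one_lt_goldenRatio
  have h1 : goldenRatio ^ i ≤ goldenRatio ^ j := pow_le_pow_right₀ this.le h
  have h2 : (Nat.fib i : ℝ) ≤ Nat.fib j := by exact_mod_cast Nat.fib_mono h
  have h3 : 0 ≤ goldenRatio ^ j := by positivity
  exact mul_le_mul h1 h2 (by positivity) h3

lemma walk_eq (a b t : ℕ) : walk a b (t + 2) = Nat.fib t * a + Nat.fib (t + 1) * b := by
  induction t using Nat.strong_induction_on with
  | _ t ih =>
    match t with
    | 0 => simp [walk]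
    | 1 => simp [walk, Nat.add_comm]
    | (t + 2) =>
      have h1 := ih (t + 1) (by omega)
      have h2 := ih t (by omega)
      have : walk a b (t + 2 + 2) = walk a b (t + 1 + 2) + walk a b (t + 2) := rfl
      rw [this, h1, h2, Nat.fib_add_two (n := t + 1), Nat.fib_add_two (n := t)]
      ring

lemma cassini (t : ℕ) : (Nat.fib t : ℤ) * Nat.fib (t + 2) - (Nat.fib (t + 1) : ℤ) ^ 2 =
    (-1) ^ (t + 1) := by
  induction t with
  | zero => simp
  | succ t ih =>
    have e1 : (Nat.fib (t + 2) : ℤ) = Nat.fib t + Nat.fib (t + 1) := by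
      rw [Nat.fib_add_two]; push_cast; ring
    have e2 : (Nat.fib (t + 1 + 2) : ℤ) = Nat.fib (t + 1) + Nat.fib (t + 2) := by
      rw [Nat.fib_add_two]; push_cast; ring
    have e3 : (Nat.fib (t + 1 + 1) : ℤ) = Nat.fib (t + 2) := rfl
    rw [e2, pow_succ ((-1) : ℤ) (t + 1), ← ih, e3, e1]
    ring

lemma psi_fib (t : ℕ) : (Nat.fib (t + 1) : ℝ) - goldenRatio * Nat.fib t = goldenConj ^ t :=
  fib_succ_sub_goldenRatio_mul_fib t

lemma phi_psi_pow (t : ℕ) : goldenRatio ^ t * goldenConj ^ t = (-1) ^ t := by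
  rw [← mul_pow, goldenRatio_mul_goldenConj]

/-- feasibility at level `t+1` (index `t+2`) -/
def Fe (k n : ℕ) (e : ℝ) : Prop :=
  0 < (n : ℝ) + (-1) ^ k * gg k * e ∧ 0 < (n : ℝ) - (-1) ^ k * gg (k - 1) * e

lemma feas_iff (t n m : ℕ) :
    (∃ a b, 1 ≤ a ∧ 1 ≤ b ∧ walk a b (t + 2) = n ∧ walk a b (t + 3) = m) ↔
      Fe (t + 1) n (goldenRatio * n - m) := by
  have hs : ((-1 : ℝ) ^ t) * (-1) ^ t = 1 := by rw [← mul_pow]; simp
  have q0 := psi_fib t
  have q1 := psi_fib (t + 1)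
  have pq := phi_psi_pow t
  have e1 : (Nat.fib (t + 2) : ℝ) = Nat.fib t + Nat.fib (t + 1) := by
    rw [Nat.fib_add_two]; push_cast; ring
  have r0 : (Nat.fib (t + 1) : ℝ) - goldenConj * Nat.fib t = goldenRatio ^ t :=
    fib_succ_sub_goldenConj_mul_fib t
  have pp : goldenRatio * goldenConj = -1 := goldenRatio_mul_goldenConj
  have ps : goldenRatio + goldenConj = 1 := goldenRatio_add_goldenConj
  have hpos : 0 < goldenRatio := goldenRatio_pos
  unfold Fe gg
  rw [Nat.add_sub_cancel]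
  constructor
  · rintro ⟨a, b, ha, hb, hn, hm⟩
    rw [walk_eq] at hn
    have hm' : walk a b (t + 1 + 2) = m := hm
    rw [walk_eq] at hm'
    have hnR : (n : ℝ) = Nat.fib t * a + Nat.fib (t + 1) * b := by
      rw [← hn]; push_cast; ring
    have hmR : (m : ℝ) = Nat.fib (t + 1) * a + Nat.fib (t + 2) * b := by
      rw [← hm']; push_cast; ring
    have he : goldenRatio * n - m = - goldenConj ^ t * (a + b * goldenConj) := by
      rw [← q0, hnR, hmR, e1]
      linear_combination (Nat.fib (t+1) * b * (1 : ℝ)) * ps - b * Nat.fib t * pp 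
    constructor
    · have : (n : ℝ) + (-1) ^ (t + 1) * (goldenRatio ^ (t + 1) * Nat.fib (t + 1)) *
          (goldenRatio * n - m) = a * goldenRatio ^ (t + 1) := by
        rw [he, hnR, pow_succ, pow_succ]
        linear_combination ((-1) ^ t * goldenRatio * Nat.fib (t + 1) * (a + b * goldenConj)) * pq +
          (goldenRatio * Nat.fib (t + 1) * (a + b * goldenConj)) * hs +
          (Nat.fib (t + 1) * b + Nat.fib t * a) * pp + (a * goldenRatio) * r0
      rw [this]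
      have : (1 : ℝ) ≤ a := by exact_mod_cast ha
      positivity
    · have : (n : ℝ) - (-1) ^ (t + 1) * (goldenRatio ^ t * Nat.fib t) *
          (goldenRatio * n - m) = b * goldenRatio ^ t := by
        rw [he, hnR, pow_succ]
        linear_combination (-((-1) ^ t * Nat.fib t * (a + b * goldenConj))) * pq -
          (Nat.fib t * (a + b * goldenConj)) * hs + b * r0
      rw [this]
      have : (1 : ℝ) ≤ b := by exact_mod_cast hb
      positivity
  · rintro ⟨h1, h2⟩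
    have hc := cassini t
    have ht : ((-1 : ℤ) ^ (t + 1)) * (-1) ^ (t + 1) = 1 := by rw [← mul_pow]; simp
    have hA : (0 : ℤ) < (-1) ^ (t + 1) * (Nat.fib (t + 2) * n - Nat.fib (t + 1) * m) := by
      have : (0 : ℝ) < goldenRatio ^ (t + 1) *
          ((-1) ^ (t + 1) * (Nat.fib (t + 2) * n - Nat.fib (t + 1) * m)) := by
        have e : goldenRatio ^ (t + 1) *
          ((-1) ^ (t + 1) * (Nat.fib (t + 2) * n - Nat.fib (t + 1) * m)) =
          (n : ℝ) + (-1) ^ (t + 1) * (goldenRatio ^ (t + 1) * Nat.fib (t + 1)) *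
          (goldenRatio * n - m) := by
          have hs' : ((-1 : ℝ) ^ (t + 1)) * (-1) ^ (t + 1) = 1 := by rw [← mul_pow]; simp
          have pq' := phi_psi_pow (t + 1)
          have q1' : (Nat.fib (t + 2) : ℝ) - goldenRatio * Nat.fib (t + 1) =
            goldenConj ^ (t + 1) := psi_fib (t + 1)
          linear_combination (goldenRatio ^ (t + 1) * (-1) ^ (t + 1) * n) * q1' +
            ((-1) ^ (t + 1) * n) * pq' + n * hs'
        rw [e]; exact h1
      have h3 := (mul_pos_iff_of_pos_left (by positivity)).1 this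
      exact_mod_cast h3
    have hB : (0 : ℤ) < (-1) ^ (t + 1) * (Nat.fib t * m - Nat.fib (t + 1) * n) := by
      have : (0 : ℝ) < goldenRatio ^ t *
          ((-1) ^ (t + 1) * (Nat.fib t * m - Nat.fib (t + 1) * n)) := by
        have e : goldenRatio ^ t *
          ((-1) ^ (t + 1) * (Nat.fib t * m - Nat.fib (t + 1) * n)) =
          (n : ℝ) - (-1) ^ (t + 1) * (goldenRatio ^ t * Nat.fib t) *
          (goldenRatio * n - m) := by
          rw [pow_succ (-1 : ℝ) t]
          linear_combination ((-1) ^ t * n * goldenRatio ^ t) * q0 +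
            ((-1) ^ t * n) * pq + n * hs
        rw [e]; exact h2
      have h3 := (mul_pos_iff_of_pos_left (by positivity)).1 this
      exact_mod_cast h3
    obtain ⟨A, hA'⟩ := Int.eq_ofNat_of_zero_le hA.le
    obtain ⟨B, hB'⟩ := Int.eq_ofNat_of_zero_le hB.le
    refine ⟨A, B, ?_, ?_, ?_, ?_⟩
    · rw [hA'] at hA; exact_mod_cast hA
    · rw [hB'] at hB; exact_mod_cast hB
    · rw [walk_eq]
      have : ((Nat.fib t * A + Nat.fib (t + 1) * B : ℕ) : ℤ) = n := by
        push_cast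
        rw [← hA', ← hB']
        linear_combination ((-1) ^ (t + 1) * n) * hc + n * ht
      exact_mod_cast this
    · have : walk A B (t + 3) = walk A B (t + 1 + 2) := rfl
      rw [this, walk_eq]
      have : ((Nat.fib (t + 1) * A + Nat.fib (t + 2) * B : ℕ) : ℤ) = m := by
        push_cast
        rw [← hA', ← hB']
        linear_combination ((-1) ^ (t + 1) * m) * hc + m * ht
      exact_mod_cast this

/-- fractional part of `φ n` -/
noncomputable def xx (n : ℕ) : ℝ := Int.fract (goldenRatio * n)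

lemma xx_pos {n : ℕ} (hn : 1 ≤ n) : 0 < xx n := by
  unfold xx
  rw [Int.fract_pos]
  intro h
  have hirr : Irrational (goldenRatio * n) :=
    goldenRatio_irrational.mul_natCast (by omega)
  exact hirr.ne_int _ h

lemma xx_lt_one (n : ℕ) : xx n < 1 := Int.fract_lt_one _

lemma fe_even_x {k n : ℕ} (hk : Even k) {x : ℝ} (hx : 0 < x) (hn : 1 ≤ n) :
    Fe k n x ↔ x * gg (k - 1) < n := by
  unfold Fe
  rw [hk.neg_one_pow]
  have h1 := gg_nonneg k
  have h2 : (1 : ℝ) ≤ n := by exact_mod_cast hn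
  have h3 : 0 ≤ gg k * x := by positivity
  constructor
  · rintro ⟨_, h⟩; linarith
  · intro h; constructor <;> linarith

lemma fe_odd_x {k n : ℕ} (hk : Odd k) {x : ℝ} (hx : 0 < x) (hn : 1 ≤ n) :
    Fe k n x ↔ x * gg k < n := by
  unfold Fe
  rw [hk.neg_one_pow]
  have h1 := gg_nonneg (k - 1)
  have h2 : (1 : ℝ) ≤ n := by exact_mod_cast hn
  have h3 : 0 ≤ gg (k - 1) * x := by positivity
  constructor
  · rintro ⟨h, _⟩; linarith
  · intro h; constructor <;> linarith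

lemma fe_even_y {k n : ℕ} (hk : Even k) {y : ℝ} (hy : 0 < y) (hn : 1 ≤ n) :
    Fe k n (-y) ↔ y * gg k < n := by
  unfold Fe
  rw [hk.neg_one_pow]
  have h1 := gg_nonneg (k - 1)
  have h2 : (1 : ℝ) ≤ n := by exact_mod_cast hn
  have h3 : 0 ≤ gg (k - 1) * y := by positivity
  constructor
  · rintro ⟨h, _⟩; linarith
  · intro h; constructor <;> linarith

lemma fe_odd_y {k n : ℕ} (hk : Odd k) {y : ℝ} (hy : 0 < y) (hn : 1 ≤ n) :
    Fe k n (-y) ↔ y * gg (k - 1) < n := by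
  unfold Fe
  rw [hk.neg_one_pow]
  have h1 := gg_nonneg k
  have h2 : (1 : ℝ) ≤ n := by exact_mod_cast hn
  have h3 : 0 ≤ gg k * y := by positivity
  constructor
  · rintro ⟨_, h⟩; linarith
  · intro h; constructor <;> linarith

/-- monotonicity in the error -/
lemma fe_mono_x {k n : ℕ} {e x : ℝ} (hx : 0 < x) (hex : x ≤ e) (hn : 1 ≤ n) (h : Fe k n e) :
    Fe k n x := by
  rcases Nat.even_or_odd k with hk | hk
  · rw [fe_even_x hk (lt_of_lt_of_le hx hex) hn] at h
    rw [fe_even_x hk hx hn]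
    have := mul_le_mul_of_nonneg_right hex (gg_nonneg (k - 1))
    linarith
  · rw [fe_odd_x hk (lt_of_lt_of_le hx hex) hn] at h
    rw [fe_odd_x hk hx hn]
    have := mul_le_mul_of_nonneg_right hex (gg_nonneg k)
    linarith

lemma fe_mono_y {k n : ℕ} {e y : ℝ} (hy : 0 < y) (hey : y ≤ e) (hn : 1 ≤ n) (h : Fe k n (-e)) :
    Fe k n (-y) := by
  rcases Nat.even_or_odd k with hk | hk
  · rw [fe_even_y hk (lt_of_lt_of_le hy hey) hn] at h
    rw [fe_even_y hk hy hn]
    have := mul_le_mul_of_nonneg_right hey (gg_nonneg k)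
    linarith
  · rw [fe_odd_y hk (lt_of_lt_of_le hy hey) hn] at h
    rw [fe_odd_y hk hy hn]
    have := mul_le_mul_of_nonneg_right hey (gg_nonneg (k - 1))
    linarith

/-- the floor of `φ n` as a natural number -/
lemma floor_nat (n : ℕ) : ∃ m : ℕ, (m : ℤ) = ⌊goldenRatio * n⌋ ∧
    goldenRatio * n - m = xx n := by
  have h0 : 0 ≤ ⌊goldenRatio * n⌋ := by
    apply Int.floor_nonneg.2
    have := goldenRatio_pos
    positivity
  obtain ⟨m, hm⟩ := Int.eq_ofNat_of_zero_le h0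
  refine ⟨m, hm.symm, ?_⟩
  unfold xx
  rw [← Int.self_sub_floor, hm]
  simp

lemma ceil_nat {n : ℕ} (hn : 1 ≤ n) {m : ℕ} (hm : (m : ℤ) = ⌊goldenRatio * n⌋) :
    ((m + 1 : ℕ) : ℤ) = ⌈goldenRatio * n⌉ := by
  symm
  rw [Int.ceil_eq_iff]
  have h1 := Int.floor_le (goldenRatio * n)
  have h2 := Int.lt_floor_add_one (goldenRatio * n)
  have h3 := xx_pos hn
  unfold xx at h3
  rw [← Int.self_sub_floor] at h3
  rw [← hm] at h1 h2 h3
  push_cast at *
  constructor <;> linarith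

/-- the level of `n` -/
lemma level {n : ℕ} (hn : 2 ≤ n) : ∃ K, 2 ≤ K ∧
    (Fe K n (xx n) ∨ Fe K n (-(1 - xx n))) ∧
    (∀ k, 1 ≤ k → (Fe k n (xx n) ∨ Fe k n (-(1 - xx n))) → k ≤ K) ∧
    (IsDown n ↔ Fe K n (xx n)) ∧ (IsUp n ↔ Fe K n (-(1 - xx n))) := by
  obtain ⟨m, hm, hmx⟩ := floor_nat n
  have hceil := ceil_nat (by omega : 1 ≤ n) hm
  have hx0 := xx_pos (by omega : 1 ≤ n)
  have hx1 := xx_lt_one n
  have hmy : goldenRatio * n - (m + 1 : ℕ) = -(1 - xx n) := by push_cast; linarith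
  set S := {s : ℕ | 1 ≤ s ∧ ∃ a₁ a₂ : ℕ, 1 ≤ a₁ ∧ 1 ≤ a₂ ∧ walk a₁ a₂ s = n} with hS
  have h3 : 3 ∈ S := by
    refine ⟨by omega, n - 1, 1, by omega, by omega, ?_⟩
    simp [walk]; omega
  have hbdd : BddAbove S := by
    refine ⟨n + 2, ?_⟩
    rintro s ⟨hs, a, b, ha, hb, hw⟩
    rcases Nat.lt_or_ge s 2 with h | h
    · omega
    · obtain ⟨t, rfl⟩ := Nat.exists_eq_add_of_le h
      rw [add_comm 2 t, walk_eq] at hw
      have h1 := Nat.le_fib_add_one (t + 2)
      rw [Nat.fib_add_two] at h1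
      have h2 : Nat.fib t * 1 ≤ Nat.fib t * a := Nat.mul_le_mul_left _ ha
      have h4 : Nat.fib (t + 1) * 1 ≤ Nat.fib (t + 1) * b := Nat.mul_le_mul_left _ hb
      omega
  have hmem : slow n ∈ S := Nat.sSup_mem ⟨3, h3⟩ hbdd
  have hmax : ∀ s ∈ S, s ≤ slow n := fun s hs => le_csSup hbdd hs
  have hge : 3 ≤ slow n := hmax 3 h3
  obtain ⟨t, ht⟩ : ∃ t, slow n = t + 2 := ⟨slow n - 2, by omega⟩
  refine ⟨t + 1, by omega, ?_, ?_, ?_, ?_⟩
  · obtain ⟨_, a, b, ha, hb, hw⟩ := hmem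
    rw [ht] at hw
    have hf := (feas_iff t n (walk a b (t + 3))).1 ⟨a, b, ha, hb, hw, rfl⟩
    rcases Nat.lt_or_ge m (walk a b (t + 3)) with h | h
    · right
      have : (m : ℝ) + 1 ≤ walk a b (t + 3) := by exact_mod_cast h
      rw [← neg_neg (goldenRatio * (n : ℝ) - (walk a b (t + 3) : ℕ))] at hf
      exact fe_mono_y (by linarith) (by linarith) (by omega) hf
    · left
      have : (walk a b (t + 3) : ℝ) ≤ m := by exact_mod_cast h
      exact fe_mono_x hx0 (by linarith) (by omega) hf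
  · intro k hk hf
    obtain ⟨j, rfl⟩ : ∃ j, k = j + 1 := ⟨k - 1, by omega⟩
    have : j + 2 ∈ S := by
      rcases hf with hf | hf
      · rw [← hmx] at hf
        obtain ⟨a, b, ha, hb, hw, _⟩ := (feas_iff j n m).2 hf
        exact ⟨by omega, a, b, ha, hb, hw⟩
      · rw [← hmy] at hf
        obtain ⟨a, b, ha, hb, hw, _⟩ := (feas_iff j n (m + 1)).2 hf
        exact ⟨by omega, a, b, ha, hb, hw⟩
    have := hmax _ this
    omega
  · unfold IsDown
    rw [← hmx, ← feas_iff t n m, ht, ← hm]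
    constructor
    · rintro ⟨_, a, b, ha, hb, hw, hw'⟩
      exact ⟨a, b, ha, hb, hw, by exact_mod_cast hw'⟩
    · rintro ⟨a, b, ha, hb, hw, hw'⟩
      exact ⟨hn, a, b, ha, hb, hw, by exact_mod_cast hw'⟩
  · unfold IsUp
    rw [← hmy, ← feas_iff t n (m + 1), ht, ← hceil]
    constructor
    · rintro ⟨_, a, b, ha, hb, hw, hw'⟩
      exact ⟨a, b, ha, hb, hw, by exact_mod_cast hw'⟩
    · rintro ⟨a, b, ha, hb, hw, hw'⟩
      exact ⟨hn, a, b, ha, hb, hw, by exact_mod_cast hw'⟩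

/-- the two alternatives -/
lemma dichotomy {n : ℕ} (hn : 2 ≤ n) :
    (∃ k, Even k ∧ 2 ≤ k ∧ xx n * gg (k - 1) < n ∧ (n : ℝ) ≤ (1 - xx n) * gg k ∧
      IsDown n ∧ ¬ IsUp n ∧ ∀ j, 1 ≤ j → (Fe j n (xx n) ∨ Fe j n (-(1 - xx n))) → j ≤ k) ∨
    (∃ k, Odd k ∧ 2 ≤ k ∧ (1 - xx n) * gg (k - 1) < n ∧ (n : ℝ) ≤ xx n * gg k ∧
      IsUp n ∧ ¬ IsDown n ∧ ∀ j, 1 ≤ j → (Fe j n (xx n) ∨ Fe j n (-(1 - xx n))) → j ≤ k) := by
  obtain ⟨K, hK, hf, hmax, hd, hu⟩ := level hn
  have hx0 := xx_pos (by omega : 1 ≤ n)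
  have hx1 := xx_lt_one n
  have hn1 : 1 ≤ n := by omega
  have hnx : ¬ Fe (K + 1) n (xx n) := fun h => by
    have := hmax (K + 1) (by omega) (Or.inl h); omega
  have hny : ¬ Fe (K + 1) n (-(1 - xx n)) := fun h => by
    have := hmax (K + 1) (by omega) (Or.inr h); omega
  rcases Nat.even_or_odd K with hk | hk
  · left
    have hk1 : Odd (K + 1) := hk.add_one
    rw [fe_odd_y hk1 (by linarith) hn1, Nat.add_sub_cancel, not_lt] at hny
    have h2 : ¬ Fe K n (-(1 - xx n)) := by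
      rw [fe_even_y hk (by linarith) hn1]; linarith
    have h1 : Fe K n (xx n) := hf.resolve_right h2
    refine ⟨K, hk, hK, ?_, hny, hd.2 h1, fun h => h2 (hu.1 h), hmax⟩
    rwa [fe_even_x hk hx0 hn1] at h1
  · right
    have hk1 : Even (K + 1) := hk.add_one
    rw [fe_even_x hk1 hx0 hn1, Nat.add_sub_cancel, not_lt] at hnx
    have h2 : ¬ Fe K n (xx n) := by
      rw [fe_odd_x hk hx0 hn1]; linarith
    have h1 : Fe K n (-(1 - xx n)) := hf.resolve_left h2
    refine ⟨K, hk, hK, ?_, hnx, hu.2 h1, fun h => h2 (hd.1 h), hmax⟩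
    rwa [fe_odd_y hk (by linarith) hn1] at h1

lemma up_iff {n : ℕ} (hn : 2 ≤ n) : IsUp n ↔ ¬ IsDown n := by
  rcases dichotomy hn with ⟨_, _, _, _, _, h1, h2, _⟩ | ⟨_, _, _, _, _, h1, h2, _⟩ <;> tauto

/-- criterion for down-integers -/
lemma down_of {n k : ℕ} (hn : 2 ≤ n) (hk : Even k) (hk2 : 2 ≤ k)
    (h1 : xx n * gg (k - 1) < n) (h2 : (n : ℝ) ≤ (1 - xx n) * gg k) : IsDown n := by
  have hx0 := xx_pos (by omega : 1 ≤ n)
  have hx1 := xx_lt_one n
  rcases dichotomy hn with ⟨_, _, _, _, _, h, _⟩ | ⟨K, hK, hK2, h3, h4, h5, h6, hmax⟩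
  · exact h
  · exfalso
    have hle : k ≤ K := hmax k (by omega) (Or.inl ((fe_even_x hk hx0 (by omega)).2 h1))
    have hlt : k ≤ K - 1 := by
      rcases hle.lt_or_eq with h | h
      · omega
      · subst h; exact absurd hk (Nat.not_even_iff_odd.2 hK)
    have := mul_le_mul_of_nonneg_left (gg_mono hlt) (by linarith : 0 ≤ 1 - xx n)
    linarith

/-- criterion for up-integers -/
lemma up_of {n k : ℕ} (hn : 2 ≤ n) (hk : Odd k) (hk2 : 2 ≤ k)
    (h1 : (1 - xx n) * gg (k - 1) < n) (h2 : (n : ℝ) ≤ xx n * gg k) : IsUp n := by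
  have hx0 := xx_pos (by omega : 1 ≤ n)
  have hx1 := xx_lt_one n
  rcases dichotomy hn with ⟨K, hK, hK2, h3, h4, h5, h6, hmax⟩ | ⟨_, _, _, _, _, h, _⟩
  · exfalso
    have hle : k ≤ K := hmax k (by omega) (Or.inr ((fe_odd_y hk (by linarith) (by omega)).2 h1))
    have hlt : k ≤ K - 1 := by
      rcases hle.lt_or_eq with h | h
      · omega
      · subst h; exact absurd hK (Nat.not_even_iff_odd.2 hk)
    have := mul_le_mul_of_nonneg_left (gg_mono hlt) hx0.le
    linarith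
  · exact h

end Pool.Agent.Lib.MP_e2feb3_nt
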