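import Mathlib

namespace Pool.Agent.Lib.MP_e2feb3_nt

open Real Set

/-- the set of admissible third gaps -/
def G : Finset ℕ := {3, 4, 5, 6, 7, 8, 10, 11, 13}

lemma phi_lb : (1.61803 : ℝ) < goldenRatio := by
  have h : (2.23606 : ℝ) < √5 := by
    rw [Real.lt_sqrt (by norm_num)]; norm_num
  unfold goldenRatio; linarith

lemma phi_ub : goldenRatio < (1.61804 : ℝ) := by
  have h : √5 < (2.23607 : ℝ) := by
    rw [Real.sqrt_lt' (by norm_num)]; norm_num
  unfold goldenRatio; linarith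

lemma fract_shift {u y c : ℝ} (h : Int.fract u = y) (z : ℤ) (h0 : 0 ≤ y + c - z)
    (h1 : y + c - z < 1) : Int.fract (u + c) = y + c - z := by
  rw [Int.fract_eq_iff]
  refine ⟨h0, h1, ⌊u⌋ + z, ?_⟩
  push_cast
  have := Int.self_sub_floor u
  rw [h] at this
  linarith

/-- first return -/
lemma first_return (u y δ : ℝ) (hy : Int.fract u = y) (hδ0 : 0.2371 < δ) (hδ1 : δ < 0.7629)
    (hyδ : y < δ) :
    (∃ y1, Int.fract (u + goldenRatio) = y1 ∧ y1 < δ ∧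
      ((2 - goldenRatio ≤ y ∧ y1 = y + goldenRatio - 2) ∨
        (y < δ - goldenRatio + 1 ∧ y1 = y + goldenRatio - 1))) ∨
    (∃ y2, δ ≤ Int.fract (u + goldenRatio) ∧ Int.fract (u + 2 * goldenRatio) = y2 ∧ y2 < δ ∧
      y < 2 - goldenRatio ∧ δ - goldenRatio + 1 ≤ y ∧ y2 = y + 2 * goldenRatio - 3) ∨
    (∃ y3, δ ≤ Int.fract (u + goldenRatio) ∧ δ ≤ Int.fract (u + 2 * goldenRatio) ∧
      Int.fract (u + 3 * goldenRatio) = y3 ∧ y3 < δ ∧ y < 2 - goldenRatio ∧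
      δ - goldenRatio + 1 ≤ y ∧ δ - 2 * goldenRatio + 3 ≤ y ∧ 5 - 3 * goldenRatio ≤ y ∧
      y3 = y + 3 * goldenRatio - 5) ∨
    (∃ y5, δ ≤ Int.fract (u + goldenRatio) ∧ δ ≤ Int.fract (u + 2 * goldenRatio) ∧
      δ ≤ Int.fract (u + 3 * goldenRatio) ∧ δ ≤ Int.fract (u + 4 * goldenRatio) ∧
      Int.fract (u + 5 * goldenRatio) = y5 ∧ y5 < δ ∧ y < 5 - 3 * goldenRatio ∧
      δ - 2 * goldenRatio + 3 ≤ y ∧ y5 = y + 5 * goldenRatio - 8) := by
  have hl := phi_lb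
  have hu := phi_ub
  have hy0 : 0 ≤ y := by rw [← hy]; exact Int.fract_nonneg u
  by_cases c1 : 2 - goldenRatio ≤ y
  · left
    have e := fract_shift (c := goldenRatio) hy 2 (by push_cast; linarith) (by push_cast; linarith)
    push_cast at e
    exact ⟨_, e, by linarith, Or.inl ⟨c1, rfl⟩⟩
  push Not at c1
  have e1 := fract_shift (c := goldenRatio) hy 1 (by push_cast; linarith) (by push_cast; linarith)
  push_cast at e1
  by_cases c1' : y < δ - goldenRatio + 1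
  · left
    exact ⟨_, e1, by linarith, Or.inr ⟨c1', rfl⟩⟩
  push Not at c1'
  right
  have e2 := fract_shift (c := 2 * goldenRatio) hy 3 (by push_cast; linarith)
    (by push_cast; linarith)
  push_cast at e2
  by_cases c2 : y < δ - 2 * goldenRatio + 3
  · left
    exact ⟨_, by rw [e1]; linarith, e2, by linarith, c1, c1', rfl⟩
  push Not at c2
  right
  by_cases c3 : 5 - 3 * goldenRatio ≤ y
  · left
    have e3 := fract_shift (c := 3 * goldenRatio) hy 5 (by push_cast; linarith)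
      (by push_cast; linarith)
    push_cast at e3
    exact ⟨_, by rw [e1]; linarith, by rw [e2]; linarith, e3, by linarith, c1, c1', c2, c3, rfl⟩
  push Not at c3
  right
  have e3 := fract_shift (c := 3 * goldenRatio) hy 4 (by push_cast; linarith)
    (by push_cast; linarith)
  have e4 := fract_shift (c := 4 * goldenRatio) hy 6 (by push_cast; linarith)
    (by push_cast; linarith)
  have e5 := fract_shift (c := 5 * goldenRatio) hy 8 (by push_cast; linarith)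
    (by push_cast; linarith)
  push_cast at e3 e4 e5
  exact ⟨_, by rw [e1]; linarith, by rw [e2]; linarith, by rw [e3]; linarith,
    by rw [e4]; linarith, e5, by linarith, c3, c2, rfl⟩

open Classical in
/-- one step: from a member at position `n + j` to the next one -/
lemma step (P : ℕ → Prop) (n : ℕ) (c δ : ℝ) (hδ0 : 0.2371 < δ) (hδ1 : δ < 0.7629)
    (hP : ∀ i ≤ 15, P (n + i) ↔ Int.fract (goldenRatio * (n + i : ℕ) - c) < δ)
    (j : ℕ) (hj : j ≤ 10) (y : ℝ) (hy : Int.fract (goldenRatio * (n + j : ℕ) - c) = y)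
    (hyδ : y < δ) :
    ∃ g y', Int.fract (goldenRatio * (n + (j + g) : ℕ) - c) = y' ∧ y' < δ ∧
      Nat.count P (n + (j + g)) = Nat.count P (n + j) + 1 ∧
      ((g = 1 ∧ 2 - goldenRatio ≤ y ∧ y' = y + goldenRatio - 2) ∨
       (g = 1 ∧ y < δ - goldenRatio + 1 ∧ y' = y + goldenRatio - 1) ∨
       (g = 2 ∧ y < 2 - goldenRatio ∧ δ - goldenRatio + 1 ≤ y ∧ y' = y + 2 * goldenRatio - 3) ∨
       (g = 3 ∧ y < 2 - goldenRatio ∧ δ - goldenRatio + 1 ≤ y ∧ δ - 2 * goldenRatio + 3 ≤ y ∧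
          5 - 3 * goldenRatio ≤ y ∧ y' = y + 3 * goldenRatio - 5) ∨
       (g = 5 ∧ y < 5 - 3 * goldenRatio ∧ δ - 2 * goldenRatio + 3 ≤ y ∧
          y' = y + 5 * goldenRatio - 8)) := by
  have key : ∀ g : ℕ, goldenRatio * (n + (j + g) : ℕ) - c =
      (goldenRatio * (n + j : ℕ) - c) + g * goldenRatio := by
    intro g; push_cast; ring
  have hPj : P (n + j) := (hP j (by omega)).2 (by rw [hy]; exact hyδ)
  have hmem : ∀ g : ℕ, j + g ≤ 15 → (P (n + j + g) ↔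
      Int.fract ((goldenRatio * (n + j : ℕ) - c) + g * goldenRatio) < δ) := by
    intro g hg
    rw [← key g, add_assoc]
    exact hP (j + g) hg
  rcases first_return _ y δ hy hδ0 hδ1 hyδ with h | h | h | h
  · obtain ⟨y1, h1, h2, h3⟩ := h
    refine ⟨1, y1, ?_, h2, ?_, ?_⟩
    · rw [key 1, Nat.cast_one, one_mul]; exact h1
    · rw [← add_assoc, Nat.count_succ, if_pos hPj]
    · rcases h3 with h3 | h3
      · exact Or.inl ⟨rfl, h3⟩
      · exact Or.inr (Or.inl ⟨rfl, h3⟩)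
  · obtain ⟨y2, h1, h2, h3, h4, h5, h6⟩ := h
    have n1 : ¬ P (n + j + 1) := by
      rw [hmem 1 (by omega), Nat.cast_one, one_mul]; linarith
    refine ⟨2, y2, ?_, h3, ?_, ?_⟩
    · rw [key 2, Nat.cast_ofNat]; exact h2
    · rw [← add_assoc, Nat.count_succ, Nat.count_succ, if_pos hPj, if_neg n1]
    · exact Or.inr (Or.inr (Or.inl ⟨rfl, h4, h5, h6⟩))
  · obtain ⟨y3, h1, h2, h3, h4, h5, h6, h7, h8, h9⟩ := h
    have n1 : ¬ P (n + j + 1) := by
      rw [hmem 1 (by omega), Nat.cast_one, one_mul]; linarith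
    have n2 : ¬ P (n + j + 2) := by
      rw [hmem 2 (by omega), Nat.cast_ofNat]; linarith
    refine ⟨3, y3, ?_, h4, ?_, ?_⟩
    · rw [key 3, Nat.cast_ofNat]; exact h3
    · rw [← add_assoc, Nat.count_succ, Nat.count_succ, Nat.count_succ, if_pos hPj, if_neg n1,
        if_neg n2]
    · exact Or.inr (Or.inr (Or.inr (Or.inl ⟨rfl, h5, h6, h7, h8, h9⟩)))
  · obtain ⟨y5, h1, h2, h3, h4, h5, h6, h7, h8, h9⟩ := h
    have n1 : ¬ P (n + j + 1) := by
      rw [hmem 1 (by omega), Nat.cast_one, one_mul]; linarith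
    have n2 : ¬ P (n + j + 2) := by
      rw [hmem 2 (by omega), Nat.cast_ofNat]; linarith
    have n3 : ¬ P (n + j + 3) := by
      rw [hmem 3 (by omega), Nat.cast_ofNat]; linarith
    have n4 : ¬ P (n + j + 4) := by
      rw [hmem 4 (by omega), Nat.cast_ofNat]; linarith
    refine ⟨5, y5, ?_, h6, ?_, ?_⟩
    · rw [key 5, Nat.cast_ofNat]; exact h5
    · rw [← add_assoc, Nat.count_succ, Nat.count_succ, Nat.count_succ, Nat.count_succ,
        Nat.count_succ, if_pos hPj, if_neg n1, if_neg n2, if_neg n3, if_neg n4]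
    · exact Or.inr (Or.inr (Or.inr (Or.inr ⟨rfl, h7, h8, h9⟩)))

open Classical in
/-- third return -/
lemma third (P : ℕ → Prop) (n : ℕ) (c δ : ℝ) (hδ0 : 0.2371 < δ) (hδ1 : δ < 0.7629)
    (hP : ∀ i ≤ 15, P (n + i) ↔ Int.fract (goldenRatio * (n + i : ℕ) - c) < δ)
    (hn : P n) :
    ∃ g ∈ G, P (n + g) ∧ Nat.count P (n + g) = Nat.count P n + 3 := by
  have hl := phi_lb
  have hu := phi_ub
  have h0 : Int.fract (goldenRatio * (n + 0 : ℕ) - c) < δ := (hP 0 (by omega)).1 (by simpa using hn)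
  have hy0 := Int.fract_nonneg (goldenRatio * (n + 0 : ℕ) - c)
  generalize hy : Int.fract (goldenRatio * (n + 0 : ℕ) - c) = y at h0 hy0
  obtain ⟨g1, y1, e1, l1, c1, d1⟩ := step P n c δ hδ0 hδ1 hP 0 (by omega) y hy h0
  have hg1 : g1 ≤ 5 := by
    rcases d1 with h | h | h | h | h <;> omega
  have p1 := Int.fract_nonneg (goldenRatio * (n + (0 + g1) : ℕ) - c)
  rw [e1] at p1
  obtain ⟨g2, y2, e2, l2, c2, d2⟩ := step P n c δ hδ0 hδ1 hP (0 + g1) (by omega) y1 e1 l1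
  have hg2 : g2 ≤ 5 := by
    rcases d2 with h | h | h | h | h <;> omega
  have p2 := Int.fract_nonneg (goldenRatio * (n + (0 + g1 + g2) : ℕ) - c)
  rw [e2] at p2
  obtain ⟨g3, y3, e3, l3, c3, d3⟩ := step P n c δ hδ0 hδ1 hP (0 + g1 + g2) (by omega) y2 e2 l2
  have hg3 : g3 ≤ 5 := by
    rcases d3 with h | h | h | h | h <;> omega
  have p3 := Int.fract_nonneg (goldenRatio * (n + (0 + g1 + g2 + g3) : ℕ) - c)
  rw [e3] at p3
  refine ⟨0 + g1 + g2 + g3, ?_, ?_, ?_⟩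
  · clear hP e1 e2 e3 c1 c2 c3 hg1 hg2 hg3 hy
    rcases d1 with ⟨rfl, a1, a2⟩ | ⟨rfl, a1, a2⟩ | ⟨rfl, a1, a2, a3⟩ | ⟨rfl, a1, a2, a3, a4, a5⟩ |
      ⟨rfl, a1, a2, a3⟩ <;>
    rcases d2 with ⟨rfl, b1, b2⟩ | ⟨rfl, b1, b2⟩ | ⟨rfl, b1, b2, b3⟩ | ⟨rfl, b1, b2, b3, b4, b5⟩ |
      ⟨rfl, b1, b2, b3⟩ <;>
    rcases d3 with ⟨rfl, f1, f2⟩ | ⟨rfl, f1, f2⟩ | ⟨rfl, f1, f2, f3⟩ | ⟨rfl, f1, f2, f3, f4, f5⟩ |
      ⟨rfl, f1, f2, f3⟩ <;>
    first
    | decide
    | (exfalso; linarith)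
  · rw [hP _ (by omega), e3]; exact l3
  · rw [c3, c2, c1]; simp

end Pool.Agent.Lib.MP_e2feb3_nt
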