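import Mathlib
import Pool.Agent.Lib.MP_e2feb3_nt.Defs
import Pool.Agent.Lib.MP_e2feb3_nt.Rot
import Pool.Agent.Lib.MP_e2feb3_nt.Char

namespace Pool.Agent.Lib.MP_e2feb3_nt

open Real

lemma gg_add (k : ℕ) : gg k + gg (k + 1) = goldenRatio ^ (2 * k + 1) := by
  unfold gg
  have h := goldenRatio_mul_fib_succ_add_fib k
  have e : goldenRatio ^ (2 * k + 1) = goldenRatio ^ k * goldenRatio ^ (k + 1) := by
    rw [← pow_add]; congr 1; ring
  have h2 : goldenRatio ^ (k + 1) = goldenRatio ^ k * goldenRatio := pow_succ _ _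
  rw [e]
  linear_combination goldenRatio ^ k * h + (Nat.fib (k + 1) : ℝ) * h2

lemma gg_mul (k : ℕ) : gg k * gg (k + 1) =
    goldenRatio ^ (2 * k + 1) * (Nat.fib k * Nat.fib (k + 1)) := by
  unfold gg
  have e : goldenRatio ^ (2 * k + 1) = goldenRatio ^ k * goldenRatio ^ (k + 1) := by
    rw [← pow_add]; congr 1; ring
  rw [e]; ring

lemma gam_add (k : ℕ) (hk : 1 ≤ k) (r : ℝ) :
    r / gg k + r / gg (k + 1) = r / (Nat.fib k * Nat.fib (k + 1)) := by
  have h1 := gg_pos k hk
  have h2 := gg_pos (k + 1) (by omega)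
  have h3 : (0 : ℝ) < Nat.fib k := by exact_mod_cast Nat.fib_pos.2 hk
  have h4 : (0 : ℝ) < Nat.fib (k + 1) := by exact_mod_cast Nat.fib_pos.2 (Nat.succ_pos k)
  have h5 : 0 < goldenRatio ^ (2 * k + 1) := by have := goldenRatio_pos; positivity
  have e : r / gg k + r / gg (k + 1) = r * (gg k + gg (k + 1)) / (gg k * gg (k + 1)) := by
    field_simp
    ring
  rw [e, gg_add, gg_mul]
  field_simp

lemma gam_le (k : ℕ) (hk : 1 ≤ k) (n : ℕ) (h : n ≤ Nat.fib k * Nat.fib (k + 1)) :
    (n : ℝ) / gg k + n / gg (k + 1) ≤ 1 := by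
  rw [gam_add k hk]
  have h3 : (0 : ℝ) < Nat.fib k := by exact_mod_cast Nat.fib_pos.2 hk
  have h4 : (0 : ℝ) < Nat.fib (k + 1) := by exact_mod_cast Nat.fib_pos.2 (Nat.succ_pos k)
  rw [div_le_one (by positivity)]
  exact_mod_cast h

lemma gam_gt (k : ℕ) (hk : 1 ≤ k) (n : ℕ) (h : Nat.fib k * Nat.fib (k + 1) < n) :
    1 < (n : ℝ) / gg k + n / gg (k + 1) := by
  rw [gam_add k hk]
  have h3 : (0 : ℝ) < Nat.fib k := by exact_mod_cast Nat.fib_pos.2 hk
  have h4 : (0 : ℝ) < Nat.fib (k + 1) := by exact_mod_cast Nat.fib_pos.2 (Nat.succ_pos k)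
  rw [one_lt_div (by positivity)]
  exact_mod_cast h

lemma fib_lb : ∀ t : ℕ, 0.276 * goldenRatio ^ (t + 8) ≤ (Nat.fib (t + 7) : ℝ) ∧
    0.276 * goldenRatio ^ (t + 9) ≤ (Nat.fib (t + 8) : ℝ) := by
  intro t
  induction t with
  | zero =>
    have hu := phi_ub
    have e8 := goldenRatio_mul_fib_succ_add_fib 7
    have e9 := goldenRatio_mul_fib_succ_add_fib 8
    norm_num [Nat.fib] at e8 e9 ⊢
    rw [← e8, ← e9]
    constructor <;> linarith
  | succ t ih =>
    refine ⟨ih.2, ?_⟩
    have e : (Nat.fib (t + 1 + 8) : ℝ) = Nat.fib (t + 7) + Nat.fib (t + 8) := by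
      have : t + 1 + 8 = (t + 7) + 2 := by ring
      rw [this, Nat.fib_add_two]; push_cast; ring
    have e2 : goldenRatio ^ (t + 1 + 9) = goldenRatio ^ (t + 8) + goldenRatio ^ (t + 9) := by
      have := goldenRatio_sq
      have h : goldenRatio ^ (t + 1 + 9) = goldenRatio ^ (t + 8) * goldenRatio ^ 2 := by
        rw [← pow_add]
      rw [h, this]; ring
    rw [e, e2]
    linarith [ih.1, ih.2]

lemma gam_bounds (t : ℕ) (ht : 8 ≤ t) (n : ℕ) (h1 : Nat.fib (t - 1) * Nat.fib t < n)
    (h2 : n ≤ Nat.fib t * Nat.fib (t + 1)) :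
    0.276 ≤ (n : ℝ) / gg t ∧ (n : ℝ) / gg t ≤ 0.724 := by
  obtain ⟨s, rfl⟩ : ∃ s, t = s + 8 := ⟨t - 8, by omega⟩
  have hf := fib_lb s
  have e1 : s + 8 - 1 = s + 7 := by omega
  rw [e1] at h1
  have h1' : (Nat.fib (s + 7) : ℝ) * Nat.fib (s + 8) < n := by exact_mod_cast h1
  have h2' : (n : ℝ) ≤ Nat.fib (s + 8) * Nat.fib (s + 8 + 1) := by exact_mod_cast h2
  have hp : 0 < goldenRatio ^ (s + 8) := by have := goldenRatio_pos; positivity
  have hF : (0 : ℝ) < Nat.fib (s + 8) := by exact_mod_cast Nat.fib_pos.2 (by omega)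
  have hid := goldenRatio_mul_fib_succ_add_fib (s + 8)
  have hphi := goldenRatio_pos
  have hub : (Nat.fib (s + 8 + 1) : ℝ) ≤ 0.724 * goldenRatio ^ (s + 8) := by
    have e : goldenRatio ^ (s + 8 + 1) = goldenRatio * goldenRatio ^ (s + 8) := by
      rw [pow_succ]; ring
    have e9 : goldenRatio ^ (s + 9) = goldenRatio * goldenRatio ^ (s + 8) := e
    rw [e] at hid
    rw [e9] at hf
    have : goldenRatio * Nat.fib (s + 8 + 1) ≤ goldenRatio * (0.724 * goldenRatio ^ (s + 8)) := by
      linarith [hf.2]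
    exact le_of_mul_le_mul_left this hphi
  constructor
  · rw [le_div_iff₀ (gg_pos _ (by omega))]
    unfold gg
    have := mul_le_mul_of_nonneg_right hf.1 hF.le
    linarith
  · rw [div_le_iff₀ (gg_pos _ (by omega))]
    unfold gg
    have := mul_le_mul_of_nonneg_left hub hF.le
    linarith

lemma eps_bound (k : ℕ) (hk : 8 ≤ k) (i : ℕ) (hi : i ≤ 15) : (i : ℝ) / gg k ≤ 0.0165 := by
  have h1 : gg 8 ≤ gg k := gg_mono hk
  have h2 : (980 : ℝ) ≤ gg 8 := by
    unfold gg
    have e8 := goldenRatio_mul_fib_succ_add_fib 7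
    have hl := phi_lb
    norm_num [Nat.fib] at e8 ⊢
    rw [← e8]
    linarith
  rw [div_le_iff₀ (by linarith)]
  have : (i : ℝ) ≤ 15 := by exact_mod_cast hi
  linarith

lemma exists_level (n : ℕ) (hn : 273 < n) : ∃ t, 8 ≤ t ∧ Nat.fib (t - 1) * Nat.fib t < n ∧
    n ≤ Nat.fib t * Nat.fib (t + 1) := by
  classical
  have hex : ∃ t, n ≤ Nat.fib t * Nat.fib (t + 1) := by
    refine ⟨n + 2, ?_⟩
    have h1 := Nat.le_fib_add_one (n + 2)
    have h2 : 1 ≤ Nat.fib (n + 2 + 1) := Nat.fib_pos.2 (by omega)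
    nlinarith
  set t := Nat.find hex with ht
  have hspec : n ≤ Nat.fib t * Nat.fib (t + 1) := Nat.find_spec hex
  have h8 : 8 ≤ t := by
    by_contra hcon
    have h7 : t ≤ 7 := by omega
    have h1 : Nat.fib t ≤ Nat.fib 7 := Nat.fib_mono h7
    have h2 : Nat.fib (t + 1) ≤ Nat.fib 8 := Nat.fib_mono (by omega)
    have h3 : Nat.fib t * Nat.fib (t + 1) ≤ Nat.fib 7 * Nat.fib 8 := Nat.mul_le_mul h1 h2
    have h4 : Nat.fib 7 * Nat.fib 8 = 273 := by decide
    omega
  refine ⟨t, h8, ?_, hspec⟩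
  have := Nat.find_min hex (m := t - 1) (by omega)
  rw [not_le] at this
  have e : t - 1 + 1 = t := by omega
  rwa [e] at this

/-- the robust window -/
lemma window (n : ℕ) (hn : 273 < n) : ∃ δ : ℝ, 0.276 ≤ δ ∧ δ ≤ 0.724 ∧ ∀ i ≤ 15,
    (xx (n + i) < δ - 0.0165 → IsDown (n + i)) ∧ (IsDown (n + i) → xx (n + i) ≤ δ + 0.0165) := by
  obtain ⟨t, ht, h1, h2⟩ := exists_level n hn
  have hb := gam_bounds t ht n h1 h2
  have hle := gam_le t (by omega) n h2
  have hgt := gam_gt (t - 1) (by omega) n (by rwa [show t - 1 + 1 = t by omega])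
  rw [show t - 1 + 1 = t by omega] at hgt
  have hdiv : ∀ k i : ℕ, ((n + i : ℕ) : ℝ) / gg k = n / gg k + i / gg k := by
    intro k i; push_cast; ring
  have hi0 : ∀ k i : ℕ, (0 : ℝ) ≤ (i : ℝ) / gg k := by
    intro k i; have := gg_nonneg k; positivity
  have hanti : ∀ (k j N : ℕ), 1 ≤ k → k ≤ j → (N : ℝ) / gg j ≤ (N : ℝ) / gg k := by
    intro k j N hk hkj
    exact div_le_div_of_nonneg_left (by positivity) (gg_pos k hk) (gg_mono hkj)
  -- the criterion in terms of quotients
  have hdown : ∀ N k : ℕ, 2 ≤ N → Even k → 2 ≤ k → xx N < (N : ℝ) / gg (k - 1) →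
      (N : ℝ) / gg k ≤ 1 - xx N → IsDown N := by
    intro N k hN hk hk2 ha hb
    refine down_of hN hk hk2 ?_ ?_
    · rwa [lt_div_iff₀ (gg_pos _ (by omega))] at ha
    · rwa [div_le_iff₀ (gg_pos _ (by omega))] at hb
  have hdown' : ∀ N : ℕ, 2 ≤ N → IsDown N → ∃ k, Even k ∧ 2 ≤ k ∧ xx N < (N : ℝ) / gg (k - 1) ∧
      (N : ℝ) / gg k ≤ 1 - xx N := by
    intro N hN hd
    rcases dichotomy hN with ⟨k, hk, hk2, h3, h4, _⟩ | ⟨_, _, _, _, _, _, h, _⟩
    · refine ⟨k, hk, hk2, ?_, ?_⟩
      · rwa [lt_div_iff₀ (gg_pos _ (by omega))]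
      · rwa [div_le_iff₀ (gg_pos _ (by omega))]
    · exact absurd hd h
  rcases Nat.even_or_odd t with hte | hto
  · refine ⟨1 - n / gg t, by linarith, by linarith, ?_⟩
    intro i hi
    constructor
    · intro hx
      refine hdown (n + i) t (by omega) hte (by omega) ?_ ?_
      · rw [hdiv]; have := hi0 (t - 1) i; linarith
      · rw [hdiv]; have := eps_bound t ht i hi; linarith
    · intro hd
      obtain ⟨k, hk, hk2, h3, h4⟩ := hdown' (n + i) (by omega) hd
      rcases le_or_gt k t with hkt | hkt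
      · have := hanti k t (n + i) (by omega) hkt
        rw [hdiv t i] at this
        have := hi0 t i
        linarith
      · have hk1 : t + 1 ≤ k - 1 := by
          rcases hte with ⟨u, hu⟩; rcases hk with ⟨v, hv⟩; omega
        have h5 := hanti (t + 1) (k - 1) (n + i) (by omega) hk1
        rw [hdiv (t + 1) i] at h5
        have := eps_bound (t + 1) (by omega) i hi
        linarith
  · refine ⟨n / gg t, hb.1, hb.2, ?_⟩
    intro i hi
    constructor
    · intro hx
      refine hdown (n + i) (t + 1) (by omega) hto.add_one (by omega) ?_ ?_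
      · rw [Nat.add_sub_cancel, hdiv]; have := hi0 t i; linarith
      · rw [hdiv]; have := eps_bound (t + 1) (by omega) i hi; linarith
    · intro hd
      obtain ⟨k, hk, hk2, h3, h4⟩ := hdown' (n + i) (by omega) hd
      rcases le_or_gt k t with hkt | hkt
      · have hk1 : k ≤ t - 1 := by
          rcases hto with ⟨u, hu⟩; rcases hk with ⟨v, hv⟩; omega
        have h5 := hanti k (t - 1) (n + i) (by omega) hk1
        rw [hdiv (t - 1) i] at h5
        have := hi0 (t - 1) i
        linarith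
      · have h5 := hanti t (k - 1) (n + i) (by omega) (by omega)
        rw [hdiv t i] at h5
        have := eps_bound t ht i hi
        linarith

lemma sep (k : ℕ) (hk1 : 1 ≤ k) (hk2 : k ≤ 15) (z : ℤ) :
    (0.034 : ℝ) ≤ |(k : ℝ) * goldenRatio - z| := by
  have hl := phi_lb
  have hu := phi_ub
  have key : ∀ q : ℤ, (q : ℝ) + 0.034 ≤ (k : ℝ) * goldenRatio →
      (k : ℝ) * goldenRatio + 0.034 ≤ q + 1 → (0.034 : ℝ) ≤ |(k : ℝ) * goldenRatio - z| := by
    intro q h1 h2
    rcases le_or_gt z q with h | h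
    · have : (z : ℝ) ≤ q := by exact_mod_cast h
      rw [le_abs]; left; linarith
    · have : (q : ℝ) + 1 ≤ z := by exact_mod_cast h
      rw [le_abs]; right; linarith
  interval_cases k
  · exact key 1 (by push_cast; linarith) (by push_cast; linarith)
  · exact key 3 (by push_cast; linarith) (by push_cast; linarith)
  · exact key 4 (by push_cast; linarith) (by push_cast; linarith)
  · exact key 6 (by push_cast; linarith) (by push_cast; linarith)
  · exact key 8 (by push_cast; linarith) (by push_cast; linarith)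
  · exact key 9 (by push_cast; linarith) (by push_cast; linarith)
  · exact key 11 (by push_cast; linarith) (by push_cast; linarith)
  · exact key 12 (by push_cast; linarith) (by push_cast; linarith)
  · exact key 14 (by push_cast; linarith) (by push_cast; linarith)
  · exact key 16 (by push_cast; linarith) (by push_cast; linarith)
  · exact key 17 (by push_cast; linarith) (by push_cast; linarith)
  · exact key 19 (by push_cast; linarith) (by push_cast; linarith)
  · exact key 21 (by push_cast; linarith) (by push_cast; linarith)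
  · exact key 22 (by push_cast; linarith) (by push_cast; linarith)
  · exact key 24 (by push_cast; linarith) (by push_cast; linarith)

lemma sep' (n i j : ℕ) (hi : i ≤ 15) (hj : j ≤ 15) (hij : i ≠ j) :
    (0.034 : ℝ) ≤ |xx (n + i) - xx (n + j)| := by
  wlog h : j < i generalizing i j
  · rw [abs_sub_comm]
    exact this j i hj hi hij.symm (by omega)
  obtain ⟨k, rfl⟩ : ∃ k, i = j + k := ⟨i - j, by omega⟩
  have := sep k (by omega) (by omega)
    (⌊goldenRatio * (n + (j + k) : ℕ)⌋ - ⌊goldenRatio * (n + j : ℕ)⌋)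
  unfold xx
  rw [← Int.self_sub_floor, ← Int.self_sub_floor]
  push_cast at *
  convert this using 2
  ring

lemma window_exact (n : ℕ) (hn : 273 < n) : ∃ δ : ℝ, 0.2371 < δ ∧ δ < 0.7629 ∧ ∀ i ≤ 15,
    (IsDown (n + i) ↔ xx (n + i) < δ) := by
  obtain ⟨δ, h1, h2, h3⟩ := window n hn
  by_cases h : ∃ i ≤ 15, δ - 0.0165 ≤ xx (n + i) ∧ xx (n + i) ≤ δ + 0.0165
  · obtain ⟨i, hi, ha, hb⟩ := h
    by_cases hd : IsDown (n + i)
    · refine ⟨δ + 0.0175, by linarith, by linarith, ?_⟩
      intro j hj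
      constructor
      · intro h; have := (h3 j hj).2 h; linarith
      · intro h
        by_cases hij : j = i
        · subst hij; exact hd
        · apply (h3 j hj).1
          have := sep' n j i hj hi hij
          rw [le_abs] at this
          rcases this with h' | h' <;> linarith
    · refine ⟨δ - 0.0165, by linarith, by linarith, ?_⟩
      intro j hj
      constructor
      · intro h
        have hij : j ≠ i := by rintro rfl; exact hd h
        have h4 := (h3 j hj).2 h
        have := sep' n j i hj hi hij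
        rw [le_abs] at this
        rcases this with h' | h' <;> linarith
      · exact (h3 j hj).1
  · push Not at h
    refine ⟨δ, by linarith, by linarith, ?_⟩
    intro i hi
    constructor
    · intro hd
      have h4 := (h3 i hi).2 hd
      by_contra hcon
      push Not at hcon
      have := h i hi (by linarith)
      linarith
    · intro hx
      apply (h3 i hi).1
      by_contra hcon
      push Not at hcon
      have := h i hi hcon
      linarith

lemma fract_sub_iff {u δ : ℝ} (h0 : 0 < δ) (h1 : δ < 1) :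
    Int.fract (u - δ) < 1 - δ ↔ ¬ (Int.fract u < δ) := by
  have hf0 := Int.fract_nonneg u
  have hf1 := Int.fract_lt_one u
  constructor
  · intro h hlt
    have e := fract_shift (u := u) (c := -δ) rfl (-1) (by push_cast; linarith)
      (by push_cast; linarith)
    rw [sub_eq_add_neg, e] at h
    push_cast at h
    linarith
  · intro h
    rw [not_lt] at h
    have e := fract_shift (u := u) (c := -δ) rfl 0 (by push_cast; linarith)
      (by push_cast; linarith)
    rw [sub_eq_add_neg, e]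
    push_cast
    linarith

open Classical in
lemma third_down (n : ℕ) (hn : 273 < n) (hd : IsDown n) :
    ∃ g ∈ G, IsDown (n + g) ∧ Nat.count IsDown (n + g) = Nat.count IsDown n + 3 := by
  obtain ⟨δ, h1, h2, h3⟩ := window_exact n hn
  refine third IsDown n 0 δ h1 h2 ?_ hd
  intro i hi
  rw [sub_zero]
  exact h3 i hi

open Classical in
lemma third_up (n : ℕ) (hn : 273 < n) (hd : IsUp n) :
    ∃ g ∈ G, IsUp (n + g) ∧ Nat.count IsUp (n + g) = Nat.count IsUp n + 3 := by
  obtain ⟨δ, h1, h2, h3⟩ := window_exact n hn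
  refine third IsUp n δ (1 - δ) (by linarith) (by linarith) ?_ hd
  intro i hi
  rw [fract_sub_iff (by linarith) (by linarith), up_iff (by omega), h3 i hi]
  rfl

end Pool.Agent.Lib.MP_e2feb3_nt
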