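import Mathlib
import Pool.Agent.Lib.MP_e2feb3_nt.Defs
import Pool.Agent.Lib.MP_e2feb3_nt.Rot
import Pool.Agent.Lib.MP_e2feb3_nt.Char
import Pool.Agent.Lib.MP_e2feb3_nt.Window

namespace Pool.Agent.Lib.MP_e2feb3_nt

open Real

/-- bit mask of the down-integers below 320 -/
def bm : ℕ := 1859307511022173349454841830794925680526902551867579204993074062114163927861973908381766594639524

/-- membership test for down-integers below 320 -/
def bt (n : ℕ) : Bool := bm.testBit n

/-- arithmetic certificate at `n` -/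
def chk (n : ℕ) : Bool :=
  let m := n * 1618034 / 1000000
  decide (m * m < m * n + n * n) && decide ((m + 1) * n + n * n < (m + 1) * (m + 1)) &&
  (if bt n then
    [2, 4, 6, 8].any (fun k => decide (Nat.fib k * n < Nat.fib (k - 1) * m) &&
      decide (Nat.fib (k + 1) * n ≤ Nat.fib k * (m + 1)))
  else
    [3, 5, 7, 9].any (fun k => decide (Nat.fib (k - 1) * (m + 1) < Nat.fib k * n) &&
      decide (Nat.fib k * m ≤ Nat.fib (k + 1) * n)))

set_option maxRecDepth 100000 in
lemma chk_all : ∀ n < 320, 2 ≤ n → chk n = true := by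
  decide +kernel

/-- `φ^k (f_{k+1} n - f_k m) = (-1)^k n + ...` -/
lemma int_to_real (k n m : ℕ) (x : ℝ) (hx : goldenRatio * n - m = x) :
    goldenRatio ^ k * ((Nat.fib (k + 1) : ℝ) * n - Nat.fib k * m) = (-1) ^ k * n + gg k * x := by
  have q := psi_fib k
  have pq := phi_psi_pow k
  unfold gg
  rw [← hx]
  linear_combination (goldenRatio ^ k * n) * q + n * pq

lemma xx_of_bounds (n m : ℕ) (h1 : m * m < m * n + n * n)
    (h2 : (m + 1) * n + n * n < (m + 1) * (m + 1)) : goldenRatio * n - m = xx n := by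
  have h1' : (m : ℝ) * m < m * n + n * n := by exact_mod_cast h1
  have h2' : ((m : ℝ) + 1) * n + n * n < (m + 1) * (m + 1) := by exact_mod_cast h2
  have pp : goldenRatio * goldenConj = -1 := goldenRatio_mul_goldenConj
  have ps : goldenRatio + goldenConj = 1 := goldenRatio_add_goldenConj
  have hneg := goldenConj_neg
  have hpos := goldenRatio_pos
  have hn0 : (0 : ℝ) ≤ n := by positivity
  have hm0 : (0 : ℝ) ≤ m := by positivity
  have f1 : ((m : ℝ) - goldenRatio * n) * (m - goldenConj * n) < 0 := by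
    have : ((m : ℝ) - goldenRatio * n) * (m - goldenConj * n) = m * m - (m * n + n * n) := by
      linear_combination (-(m : ℝ) * n) * ps + (n : ℝ) * n * pp
    rw [this]; linarith
  have f2 : 0 < ((m : ℝ) + 1 - goldenRatio * n) * (m + 1 - goldenConj * n) := by
    have : ((m : ℝ) + 1 - goldenRatio * n) * (m + 1 - goldenConj * n) =
        (m + 1) * (m + 1) - ((m + 1) * n + n * n) := by
      linear_combination (-((m : ℝ) + 1) * n) * ps + (n : ℝ) * n * pp
    rw [this]; linarith
  have g1 : 0 ≤ (m : ℝ) - goldenConj * n := by nlinarith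
  have g2 : 0 < (m : ℝ) + 1 - goldenConj * n := by nlinarith
  have r1 : (m : ℝ) - goldenRatio * n < 0 := by
    by_contra hcon
    push Not at hcon
    have := mul_nonneg hcon g1
    linarith
  have r2 : 0 < (m : ℝ) + 1 - goldenRatio * n := by
    exact (pos_iff_pos_of_mul_pos f2).2 g2
  unfold xx
  symm
  rw [Int.fract_eq_iff]
  exact ⟨by linarith, by linarith, m, by push_cast; ring⟩

lemma small (n : ℕ) (hn : 2 ≤ n) (hn2 : n < 320) :
    (bt n = true ↔ IsDown n) := by
  have hc := chk_all n hn2 hn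
  unfold chk at hc
  simp only [Bool.and_eq_true, decide_eq_true_eq] at hc
  obtain ⟨⟨h1, h2⟩, h3⟩ := hc
  set m := n * 1618034 / 1000000 with hm
  have hx := xx_of_bounds n m h1 h2
  have hphi := goldenRatio_pos
  have hy : goldenRatio * n - (m + 1 : ℕ) = -(1 - xx n) := by push_cast; linarith
  constructor
  · intro hb
    rw [if_pos hb] at h3
    rw [List.any_eq_true] at h3
    obtain ⟨k, hk, h4⟩ := h3
    simp only [Bool.and_eq_true, decide_eq_true_eq] at h4
    obtain ⟨h5, h6⟩ := h4
    have hke : Even k ∧ 2 ≤ k := by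
      fin_cases hk <;> decide
    obtain ⟨j, rfl⟩ : ∃ j, k = j + 1 := ⟨k - 1, by omega⟩
    rw [Nat.add_sub_cancel] at h5
    refine down_of hn hke.1 hke.2 ?_ ?_
    · rw [Nat.add_sub_cancel]
      have e := int_to_real j n m _ hx
      have ho : Odd j := by
        rcases hke.1 with ⟨u, hu⟩; exact ⟨u - 1, by omega⟩
      rw [ho.neg_one_pow] at e
      have h5' : (Nat.fib (j + 1) : ℝ) * n - Nat.fib j * m < 0 := by
        have : (Nat.fib (j + 1) : ℝ) * n < Nat.fib j * m := by exact_mod_cast h5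
        linarith
      have : goldenRatio ^ j * ((Nat.fib (j + 1) : ℝ) * n - Nat.fib j * m) < 0 :=
        mul_neg_of_pos_of_neg (by positivity) h5'
      linarith
    · have e := int_to_real (j + 1) n (m + 1) _ hy
      rw [hke.1.neg_one_pow] at e
      have h6' : (Nat.fib (j + 1 + 1) : ℝ) * n - Nat.fib (j + 1) * (m + 1 : ℕ) ≤ 0 := by
        have : (Nat.fib (j + 1 + 1) : ℝ) * n ≤ Nat.fib (j + 1) * (m + 1 : ℕ) := by
          exact_mod_cast h6
        linarith
      have : goldenRatio ^ (j + 1) * ((Nat.fib (j + 1 + 1) : ℝ) * n -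
          Nat.fib (j + 1) * (m + 1 : ℕ)) ≤ 0 :=
        mul_nonpos_of_nonneg_of_nonpos (by positivity) h6'
      linarith
  · intro hd
    by_contra hb
    rw [if_neg hb] at h3
    rw [List.any_eq_true] at h3
    obtain ⟨k, hk, h4⟩ := h3
    simp only [Bool.and_eq_true, decide_eq_true_eq] at h4
    obtain ⟨h5, h6⟩ := h4
    have hko : Odd k ∧ 2 ≤ k := by
      fin_cases hk <;> decide
    obtain ⟨j, rfl⟩ : ∃ j, k = j + 1 := ⟨k - 1, by omega⟩
    rw [Nat.add_sub_cancel] at h5
    refine (up_iff hn).1 (up_of hn hko.1 hko.2 ?_ ?_) hd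
    · rw [Nat.add_sub_cancel]
      have e := int_to_real j n (m + 1) _ hy
      have ho : Even j := by
        rcases hko.1 with ⟨u, hu⟩; exact ⟨u, by omega⟩
      rw [ho.neg_one_pow] at e
      have h5' : 0 < (Nat.fib (j + 1) : ℝ) * n - Nat.fib j * (m + 1 : ℕ) := by
        have : (Nat.fib j : ℝ) * (m + 1 : ℕ) < Nat.fib (j + 1) * n := by exact_mod_cast h5
        linarith
      have : 0 < goldenRatio ^ j * ((Nat.fib (j + 1) : ℝ) * n - Nat.fib j * (m + 1 : ℕ)) :=
        mul_pos (by positivity) h5'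
      linarith
    · have e := int_to_real (j + 1) n m _ hx
      rw [hko.1.neg_one_pow] at e
      have h6' : 0 ≤ (Nat.fib (j + 1 + 1) : ℝ) * n - Nat.fib (j + 1) * m := by
        have : (Nat.fib (j + 1) : ℝ) * m ≤ Nat.fib (j + 1 + 1) * n := by
          exact_mod_cast h6
        linarith
      have : 0 ≤ goldenRatio ^ (j + 1) * ((Nat.fib (j + 1 + 1) : ℝ) * n -
          Nat.fib (j + 1) * m) :=
        mul_nonneg (by positivity) h6'
      linarith

lemma smallU (n : ℕ) (hn : 2 ≤ n) (hn2 : n < 320) :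
    (bt n = false ↔ IsUp n) := by
  rw [up_iff hn, ← small n hn hn2, Bool.not_eq_true]

/-- the third gap test on a boolean sequence -/
def tst (b : ℕ → Bool) (n g : ℕ) : Bool :=
  b n && b (n + g) && decide (Nat.count (fun k => b (n + k) = true) g = 3)

set_option maxRecDepth 100000 in
lemma tst_all : ∀ n < 274, 2 ≤ n → bt n = true →
    [3, 4, 5, 6, 7, 8, 10, 11, 13].any (fun g => tst bt n g) = true := by
  decide +kernel

set_option maxRecDepth 100000 in
lemma tst_allU : ∀ n < 274, 2 ≤ n → bt n = false →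
    [3, 4, 5, 6, 7, 8, 10, 11, 13].any (fun g => tst (fun k => !bt k) n g) = true := by
  decide +kernel

open Classical in
lemma count_of_tst (P : ℕ → Prop) (b : ℕ → Bool)
    (hb : ∀ n, 2 ≤ n → n < 320 → (b n = true ↔ P n)) (n g : ℕ) (hn : 2 ≤ n) (hg : n + g < 320)
    (ht : tst b n g = true) : P n ∧ P (n + g) ∧ Nat.count P (n + g) = Nat.count P n + 3 := by
  unfold tst at ht
  simp only [Bool.and_eq_true, decide_eq_true_eq] at ht
  obtain ⟨⟨h1, h2⟩, h3⟩ := ht
  refine ⟨(hb n hn (by omega)).1 h1, (hb (n + g) (by omega) hg).1 h2, ?_⟩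
  rw [Nat.count_add]
  congr 1
  rw [← h3]
  have key : ∀ j ≤ g, Nat.count (fun k => P (n + k)) j =
      Nat.count (fun k => b (n + k) = true) j := by
    intro j
    induction j with
    | zero => intro _; simp
    | succ j ih =>
      intro hj
      rw [Nat.count_succ, Nat.count_succ, ih (by omega)]
      have := hb (n + j) (by omega) (by omega)
      simp only [this]
  exact key g le_rfl

open Classical in
lemma down_all (n : ℕ) (hd : IsDown n) :
    ∃ g ∈ G, IsDown (n + g) ∧ Nat.count IsDown (n + g) = Nat.count IsDown n + 3 := by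
  rcases Nat.lt_or_ge 273 n with h | h
  · exact third_down n h hd
  · have hn : 2 ≤ n := hd.1
    have hb := (small n hn (by omega)).2 hd
    have := tst_all n (by omega) hn hb
    rw [List.any_eq_true] at this
    obtain ⟨g, hg, ht⟩ := this
    have hgG : g ∈ G := by
      have : g ∈ ([3, 4, 5, 6, 7, 8, 10, 11, 13] : List ℕ) := hg
      simpa [G] using this
    have hg13 : g ≤ 13 := by
      fin_cases hgG <;> simp
    obtain ⟨_, h2, h3⟩ := count_of_tst IsDown bt (fun n h1 h2 => small n h1 h2) n g hn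
      (by omega) ht
    exact ⟨g, hgG, h2, h3⟩

open Classical in
lemma up_all (n : ℕ) (hd : IsUp n) :
    ∃ g ∈ G, IsUp (n + g) ∧ Nat.count IsUp (n + g) = Nat.count IsUp n + 3 := by
  rcases Nat.lt_or_ge 273 n with h | h
  · exact third_up n h hd
  · have hn : 2 ≤ n := hd.1
    have hb := (smallU n hn (by omega)).2 hd
    have := tst_allU n (by omega) hn hb
    rw [List.any_eq_true] at this
    obtain ⟨g, hg, ht⟩ := this
    have hgG : g ∈ G := by
      have : g ∈ ([3, 4, 5, 6, 7, 8, 10, 11, 13] : List ℕ) := hg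
      simpa [G] using this
    have hg13 : g ≤ 13 := by
      fin_cases hgG <;> simp
    obtain ⟨_, h2, h3⟩ := count_of_tst IsUp (fun k => !bt k)
      (fun n h1 h2 => by rw [← smallU n h1 h2]; simp) n g hn (by omega) ht
    exact ⟨g, hgG, h2, h3⟩

open Classical in
lemma down_ex (g : ℕ) (hg : g ∈ G) :
    ∃ n, IsDown n ∧ IsDown (n + g) ∧ Nat.count IsDown (n + g) = Nat.count IsDown n + 3 := by
  have key : ∀ n g, 2 ≤ n → n + g < 320 → tst bt n g = true →
      IsDown n ∧ IsDown (n + g) ∧ Nat.count IsDown (n + g) = Nat.count IsDown n + 3 :=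
    fun n g hn hg ht => count_of_tst IsDown bt (fun n h1 h2 => small n h1 h2) n g hn hg ht
  fin_cases hg
  · exact ⟨46, key 46 3 (by norm_num) (by norm_num) (by decide +kernel)⟩
  · exact ⟨9, key 9 4 (by norm_num) (by norm_num) (by decide +kernel)⟩
  · exact ⟨5, key 5 5 (by norm_num) (by norm_num) (by decide +kernel)⟩
  · exact ⟨12, key 12 6 (by norm_num) (by norm_num) (by decide +kernel)⟩
  · exact ⟨2, key 2 7 (by norm_num) (by norm_num) (by decide +kernel)⟩
  · exact ⟨23, key 23 8 (by norm_num) (by norm_num) (by decide +kernel)⟩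
  · exact ⟨13, key 13 10 (by norm_num) (by norm_num) (by decide +kernel)⟩
  · exact ⟨15, key 15 11 (by norm_num) (by norm_num) (by decide +kernel)⟩
  · exact ⟨107, key 107 13 (by norm_num) (by norm_num) (by decide +kernel)⟩

open Classical in
lemma up_ex (g : ℕ) (hg : g ∈ G) :
    ∃ n, IsUp n ∧ IsUp (n + g) ∧ Nat.count IsUp (n + g) = Nat.count IsUp n + 3 := by
  have key : ∀ n g, 2 ≤ n → n + g < 320 → tst (fun k => !bt k) n g = true →
      IsUp n ∧ IsUp (n + g) ∧ Nat.count IsUp (n + g) = Nat.count IsUp n + 3 :=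
    fun n g hn hg ht => count_of_tst IsUp (fun k => !bt k)
      (fun n h1 h2 => by rw [← smallU n h1 h2]; simp) n g hn hg ht
  fin_cases hg
  · exact ⟨19, key 19 3 (by norm_num) (by norm_num) (by decide +kernel)⟩
  · exact ⟨16, key 16 4 (by norm_num) (by norm_num) (by decide +kernel)⟩
  · exact ⟨3, key 3 5 (by norm_num) (by norm_num) (by decide +kernel)⟩
  · exact ⟨11, key 11 6 (by norm_num) (by norm_num) (by decide +kernel)⟩
  · exact ⟨4, key 4 7 (by norm_num) (by norm_num) (by decide +kernel)⟩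
  · exact ⟨6, key 6 8 (by norm_num) (by norm_num) (by decide +kernel)⟩
  · exact ⟨40, key 40 10 (by norm_num) (by norm_num) (by decide +kernel)⟩
  · exact ⟨42, key 42 11 (by norm_num) (by norm_num) (by decide +kernel)⟩
  · exact ⟨291, key 291 13 (by norm_num) (by norm_num) (by decide +kernel)⟩

lemma inf_of (P : ℕ → Prop) (n0 : ℕ) (h0 : P n0) (h : ∀ n, P n → ∃ g ∈ G, P (n + g)) :
    {n | P n}.Infinite := by
  apply Set.infinite_of_forall_exists_gt
  intro a
  induction a with
  | zero =>
    obtain ⟨g, hg, h1⟩ := h n0 h0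
    have : 0 < g := by fin_cases hg <;> simp
    exact ⟨n0 + g, h1, by omega⟩
  | succ a ih =>
    obtain ⟨b, hb, hab⟩ := ih
    obtain ⟨g, hg, h1⟩ := h b hb
    have : 0 < g := by fin_cases hg <;> simp
    exact ⟨b + g, h1, by omega⟩

open Classical in
lemma gapSet_eq (P : ℕ → Prop) (hinf : {n | P n}.Infinite)
    (h1 : ∀ n, P n → ∃ g ∈ G, P (n + g) ∧ Nat.count P (n + g) = Nat.count P n + 3)
    (h2 : ∀ g ∈ G, ∃ n, P n ∧ P (n + g) ∧ Nat.count P (n + g) = Nat.count P n + 3) :
    gapSet P 3 = ↑G := by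
  ext g
  constructor
  · rintro ⟨k, rfl⟩
    have hP : P (Nat.nth P k) := Nat.nth_mem_of_infinite hinf k
    obtain ⟨g, hg, hPg, hc⟩ := h1 _ hP
    rw [Nat.count_nth_of_infinite hinf] at hc
    have := Nat.nth_count hPg
    rw [hc] at this
    rw [this, Nat.add_sub_cancel_left]
    exact hg
  · intro hg
    obtain ⟨n, hn, hng, hc⟩ := h2 g hg
    refine ⟨Nat.count P n, ?_⟩
    rw [← hc, Nat.nth_count hng, Nat.nth_count hn, Nat.add_sub_cancel_left]

theorem main : {n | IsDown n}.Infinite ∧ {n | IsUp n}.Infinite ∧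
    gapSet IsDown 3 = {3, 4, 5, 6, 7, 8, 10, 11, 13} ∧
    gapSet IsUp 3 = {3, 4, 5, 6, 7, 8, 10, 11, 13} := by
  classical
  have hG : (↑G : Set ℕ) = {3, 4, 5, 6, 7, 8, 10, 11, 13} := by
    simp [G]
  have hd2 : IsDown 2 := (small 2 le_rfl (by norm_num)).1 (by decide +kernel)
  have hu3 : IsUp 3 := (smallU 3 (by norm_num) (by norm_num)).1 (by decide +kernel)
  have i1 : {n | IsDown n}.Infinite := inf_of IsDown 2 hd2 (fun n hn => by
    obtain ⟨g, hg, h, _⟩ := down_all n hn
    exact ⟨g, hg, h⟩)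
  have i2 : {n | IsUp n}.Infinite := inf_of IsUp 3 hu3 (fun n hn => by
    obtain ⟨g, hg, h, _⟩ := up_all n hn
    exact ⟨g, hg, h⟩)
  refine ⟨i1, i2, ?_, ?_⟩
  · rw [← hG]; exact gapSet_eq IsDown i1 down_all down_ex
  · rw [← hG]; exact gapSet_eq IsUp i2 up_all up_ex

end Pool.Agent.Lib.MP_e2feb3_nt
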